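import Mathlib
import Pool.Agent.Helper771.LieHomogDefs
import Pool.Agent.Helper771.LieHomogNilp
import Pool.Agent.Helper771.LieHomogSolv
import Pool.Agent.Helper771.LieHomogFree

set_option autoImplicit false

namespace Pool.Agent.Results.MP_4b2ccd_lc.AllThreeParts

open Pool.Agent.Helper771.LieHomog

universe u

/-- Complete answer to Q1. Part (a): for every field `K` and every `r ≥ 1` the free Lie algebra
of rank `r` is logically homogeneous. Part (b): so is every free `n`-nilpotent Lie algebra of
rank `r`, `r, n ≥ 1`. Part (c) is false: for every finite field `K` and every `r ≥ 3` the free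
`2`-solvable Lie algebra of rank `r` is not logically homogeneous, so it is not true that
`S_{r,n}` is logically homogeneous for all fields and all `r, n ≥ 1`. -/
theorem result :
    (∀ (K : Type u) [Field K] (r : ℕ), 1 ≤ r →
      LogicallyHomogeneous K (FreeLieAlgebra K (Fin r))) ∧
    (∀ (K : Type u) [Field K] (r n : ℕ), 1 ≤ r → 1 ≤ n →
      LogicallyHomogeneous K (FreeNilpLie K r n)) ∧
    (∀ (K : Type u) [Field K] [Finite K] (r : ℕ), 3 ≤ r →
      ¬ LogicallyHomogeneous K (FreeSolvLie K r 2)) ∧
    ¬ (∀ (K : Type u) [Field K] (r n : ℕ), 1 ≤ r → 1 ≤ n →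
      LogicallyHomogeneous K (FreeSolvLie K r n)) := by
  refine ⟨fun K _ r _ => free_homogeneous K r,
    fun K _ r n hr hn => nilpotent_homogeneous K r n hr hn,
    fun K _ _ r hr => metabelian_not_homogeneous K r hr, fun h => ?_⟩
  have : Fact (Nat.Prime 2) := ⟨Nat.prime_two⟩
  exact metabelian_not_homogeneous (ULift.{u} (ZMod 2)) 3 le_rfl
    (h (ULift.{u} (ZMod 2)) 3 2 (by norm_num) (by norm_num))

end Pool.Agent.Results.MP_4b2ccd_lc.AllThreeParts
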