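import Mathlib
import Pool.Agent.Helper771.LieHomogDefs
import Pool.Agent.Helper771.LieHomogNilp
import Pool.Agent.Helper771.LieHomogSolv

set_option autoImplicit false

namespace Pool.Agent.Results.MP_4b2ccd_lc.NilpotentYesSolvableNo

open Pool.Agent.Helper771.LieHomog

universe u

/-- Part (b) of Q1 holds and part (c) of Q1 fails: for every field `K` and all `r, n ≥ 1` the free
`n`-nilpotent Lie algebra of rank `r` is logically homogeneous, while for every finite field `K`
and every `r ≥ 3` the free `2`-solvable (metabelian) Lie algebra of rank `r` is not; in particular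
`S_{r,n}` is not always logically homogeneous. -/
theorem result :
    (∀ (K : Type u) [Field K] (r n : ℕ), 1 ≤ r → 1 ≤ n →
      LogicallyHomogeneous K (FreeNilpLie K r n)) ∧
    (∀ (K : Type u) [Field K] [Finite K] (r : ℕ), 3 ≤ r →
      ¬ LogicallyHomogeneous K (FreeSolvLie K r 2)) ∧
    ¬ (∀ (K : Type u) [Field K] (r n : ℕ), 1 ≤ r → 1 ≤ n →
      LogicallyHomogeneous K (FreeSolvLie K r n)) := by
  refine ⟨fun K _ r n hr hn => nilpotent_homogeneous K r n hr hn,
    fun K _ _ r hr => metabelian_not_homogeneous K r hr, fun h => ?_⟩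
  have : Fact (Nat.Prime 2) := ⟨Nat.prime_two⟩
  exact metabelian_not_homogeneous (ULift.{u} (ZMod 2)) 3 le_rfl
    (h (ULift.{u} (ZMod 2)) 3 2 (by norm_num) (by norm_num))

end Pool.Agent.Results.MP_4b2ccd_lc.NilpotentYesSolvableNo
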